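import Mathlib
import Pool.Agent.Lib.MP_85963d_gt.Interfaces

/-!
# Module DET: determinants of the bilinear forms
-/

set_option autoImplicit false

open MeasureTheory Set Filter Topology Quaternion Matrix
open scoped Real ContDiff

namespace Pool.Agent.MP85963d.H72

open SF

theorem int3 {w : ℍ → ℝ} (hw : Cts w) (F G : SF) : IntegrableOn (fun x => w x * F x * G x) shell :=
  integrableOn_shell ((hw.cont.mul F.continuousOn).mul G.continuousOn)

theorem Bil_add_left {w : ℍ → ℝ} (hw : Cts w) (y z η : SF) :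
    Bil w (y + z) η = Bil w y η + Bil w z η := by
  simp only [Bil, SF.add_apply, mul_add, add_mul]
  exact integral_add (int3 hw y (psi η)) (int3 hw z (psi η))

theorem Bil_smul_left (w : ℍ → ℝ) (c : ℝ) (y η : SF) : Bil w (c • y) η = c * Bil w y η := by
  simp only [Bil, SF.smul_apply]
  rw [← integral_const_mul]
  congr 1; funext x; ring

theorem Bil_add_right (hP : PsiFacts) {n : ℕ} {w : ℍ → ℝ} (hw : Cts w) (y : SF) {η θ : SF}
    (hη : η ∈ UN n) (hθ : θ ∈ UN n) : Bil w y (η + θ) = Bil w y η + Bil w y θ := by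
  simp only [Bil, hP.add n η θ hη hθ, SF.add_apply, mul_add]
  exact integral_add (int3 hw y (psi η)) (int3 hw y (psi θ))

theorem Bil_smul_right (hP : PsiFacts) {n : ℕ} (w : ℍ → ℝ) (c : ℝ) (y : SF) {η : SF}
    (hη : η ∈ UN n) : Bil w y (c • η) = c * Bil w y η := by
  simp only [Bil, hP.smul n c η hη, SF.smul_apply]
  rw [← integral_const_mul]
  congr 1; funext x; ring

/-- the bilinear form on a subspace of `UN n` -/
noncomputable def BF (hP : PsiFacts) {n : ℕ} {w : ℍ → ℝ} (hw : Cts w) {W : Submodule ℝ SF}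
    (hW : W ≤ UN n) : W →ₗ[ℝ] W →ₗ[ℝ] ℝ :=
  LinearMap.mk₂ ℝ (fun y η => Bil w (y : SF) (η : SF))
    (fun y z η => by simpa using Bil_add_left hw (y : SF) z η)
    (fun c y η => by simpa using Bil_smul_left w c (y : SF) η)
    (fun y η θ => by simpa using Bil_add_right hP hw (y : SF) (hW η.2) (hW θ.2))
    (fun c y η => by simpa using Bil_smul_right hP w c (y : SF) (hW η.2))

@[simp] theorem BF_apply (hP : PsiFacts) {n : ℕ} {w : ℍ → ℝ} (hw : Cts w) {W : Submodule ℝ SF}
    (hW : W ≤ UN n) (y η : W) : BF hP hw hW y η = Bil w (y : SF) (η : SF) := rfl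

/-- the matrix of the form -/
noncomputable def mat {W : Submodule ℝ SF} {d : ℕ} (b : Module.Basis (Fin d) ℝ W) (w : ℍ → ℝ) :
    Matrix (Fin d) (Fin d) ℝ := Matrix.of fun i j : Fin d => Bil w (b j : SF) (b i : SF)

theorem detW_eq {W : Submodule ℝ SF} {d : ℕ} (b : Module.Basis (Fin d) ℝ W) (w : ℍ → ℝ) :
    detW b w = (mat b w).det := rfl

theorem mat_mulVec (hP : PsiFacts) {n : ℕ} {w : ℍ → ℝ} (hw : Cts w) {W : Submodule ℝ SF}
    (hW : W ≤ UN n) {d : ℕ} (b : Module.Basis (Fin d) ℝ W) (v : Fin d → ℝ) (i : Fin d) :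
    (mat b w *ᵥ v) i = Bil w ((∑ j, v j • b j : W) : SF) (b i : SF) := by
  have h1 : Bil w ((∑ j, v j • b j : W) : SF) (b i : SF)
      = BF hP hw hW (∑ j, v j • b j) (b i) := rfl
  rw [h1, map_sum, LinearMap.sum_apply]
  simp only [map_smul, LinearMap.smul_apply, smul_eq_mul, BF_apply, Matrix.mulVec, dotProduct, mat,
    Matrix.of_apply]
  exact Finset.sum_congr rfl fun j _ => mul_comm _ _

theorem dot_mat (hP : PsiFacts) {n : ℕ} {w : ℍ → ℝ} (hw : Cts w) {W : Submodule ℝ SF}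
    (hW : W ≤ UN n) {d : ℕ} (b : Module.Basis (Fin d) ℝ W) (v : Fin d → ℝ) :
    v ⬝ᵥ (mat b w *ᵥ v) = Bil w ((∑ j, v j • b j : W) : SF) ((∑ j, v j • b j : W) : SF) := by
  have h1 : Bil w ((∑ j, v j • b j : W) : SF) ((∑ j, v j • b j : W) : SF)
      = BF hP hw hW (∑ j, v j • b j) (∑ j, v j • b j) := rfl
  rw [h1]
  conv_rhs => rw [map_sum (BF hP hw hW (∑ j, v j • b j))]
  simp only [dotProduct, map_smul, smul_eq_mul]
  refine Finset.sum_congr rfl fun i _ => ?_
  rw [mat_mulVec hP hw hW b v i]; rfl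

theorem ex_basis (W : Type) [AddCommGroup W] [Module ℝ W] [FiniteDimensional ℝ W] :
    ∃ d : ℕ, Nonempty (Module.Basis (Fin d) ℝ W) := ⟨_, ⟨Module.finBasis ℝ W⟩⟩

theorem li_zero {W : Type} [AddCommMonoid W] [Module ℝ W] {d : ℕ} (b : Module.Basis (Fin d) ℝ W)
    (v : Fin d → ℝ) (h : ∑ j, v j • b j = 0) : v = 0 := by
  have h1 := b.repr_sum_self v
  rw [h] at h1
  rw [← h1]; simp

theorem ex_repr {W : Type} [AddCommMonoid W] [Module ℝ W] {d : ℕ} (b : Module.Basis (Fin d) ℝ W)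
    (y : W) : ∃ v : Fin d → ℝ, ∑ j, v j • b j = y := ⟨fun j => b.repr y j, b.sum_repr y⟩

theorem card_eq {W : Type} [AddCommMonoid W] [Module ℝ W] {d d' : ℕ}
    (b : Module.Basis (Fin d) ℝ W) (b' : Module.Basis (Fin d') ℝ W) : d = d' := by
  have h1 := Module.finrank_eq_card_basis b
  have h2 := Module.finrank_eq_card_basis b'
  simp at h1 h2
  omega

theorem kernel_zero (hP : PsiFacts) {n : ℕ} {w : ℍ → ℝ} (hw : Cts w) {W : Submodule ℝ SF}
    (hW : W ≤ UN n) {d : ℕ} (b : Module.Basis (Fin d) ℝ W) :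
    (∀ y ∈ W, (∀ η ∈ W, Bil w y η = 0) → y = 0) ↔ detW b w ≠ 0 := by
  rw [detW_eq]
  constructor
  · intro h h0
    obtain ⟨v, hv, hv0⟩ := Matrix.exists_mulVec_eq_zero_iff.2 h0
    apply hv
    apply li_zero b
    apply Subtype.ext
    have h2 : ((∑ j, v j • b j : W) : SF) = 0 := by
      apply h _ (∑ j, v j • b j : W).2
      intro η hη
      have h3 : BF hP hw hW (∑ j, v j • b j) = 0 := by
        apply b.ext
        intro i
        rw [BF_apply, ← mat_mulVec hP hw hW b v i, hv0]; rfl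
      have h4 := LinearMap.congr_fun h3 ⟨η, hη⟩
      rw [BF_apply] at h4
      exact h4
    exact h2
  · intro h y hy hη
    by_contra hne
    apply h
    apply Matrix.exists_mulVec_eq_zero_iff.1
    obtain ⟨v, hv⟩ := ex_repr b ⟨y, hy⟩
    refine ⟨v, ?_, ?_⟩
    · intro h0
      apply hne
      have h1 := congrArg Subtype.val hv
      rw [h0] at h1
      simpa using h1.symm
    · funext i
      rw [mat_mulVec hP hw hW b, hv]
      exact hη _ (b i).2

theorem det_change (hP : PsiFacts) {n : ℕ} {w : ℍ → ℝ} (hw : Cts w) {W : Submodule ℝ SF}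
    (hW : W ≤ UN n) {d : ℕ} (b b' : Module.Basis (Fin d) ℝ W) :
    ∃ c : ℝ, c ≠ 0 ∧ detW b' w = c ^ 2 * detW b w := by
  refine ⟨(b.toMatrix b').det, ?_, ?_⟩
  · have h1 : (b.toMatrix b').det * (b'.toMatrix b).det = 1 := by
      rw [← Matrix.det_mul, Module.Basis.toMatrix_mul_toMatrix_flip, Matrix.det_one]
    exact left_ne_zero_of_mul_eq_one h1
  · have h1 : mat b' w = (b.toMatrix b')ᵀ * mat b w * b.toMatrix b' := by
      ext i j
      have h2 : Bil w (b' j : SF) (b' i : SF) = BF hP hw hW (b' j) (b' i) := rfl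
      have h3 : b' j = ∑ l, b.toMatrix b' l j • b l := (b.sum_toMatrix_smul_self b' j).symm
      have h4 : b' i = ∑ k, b.toMatrix b' k i • b k := (b.sum_toMatrix_smul_self b' i).symm
      rw [mat, Matrix.of_apply, h2]
      conv_lhs => rw [h3, h4]
      simp only [map_sum, map_smul, LinearMap.sum_apply, LinearMap.smul_apply, smul_eq_mul,
        BF_apply, Matrix.mul_apply, Matrix.transpose_apply, mat, Matrix.of_apply, Finset.mul_sum,
        Finset.sum_mul]
      rw [Finset.sum_comm]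
      refine Finset.sum_congr rfl fun l _ => Finset.sum_congr rfl fun k _ => by ring
    rw [detW_eq, detW_eq, h1, Matrix.det_mul, Matrix.det_mul, Matrix.det_transpose]
    ring

/-- continuous functions without zeros on an interval have a constant sign -/
theorem sign_const {f : ℝ → ℝ} {a b : ℝ} (hab : a ≤ b) (hf : ContinuousOn f (Icc a b))
    (h0 : ∀ s ∈ Icc a b, f s ≠ 0) : (0 < f a ∧ 0 < f b) ∨ (f a < 0 ∧ f b < 0) := by
  rcases lt_or_gt_of_ne (h0 a (left_mem_Icc.2 hab)) with ha | ha <;>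
    rcases lt_or_gt_of_ne (h0 b (right_mem_Icc.2 hab)) with hb | hb
  · exact Or.inr ⟨ha, hb⟩
  · obtain ⟨s, hs, hs0⟩ := intermediate_value_Icc hab hf ⟨ha.le, hb.le⟩
    exact absurd hs0 (h0 s hs)
  · obtain ⟨s, hs, hs0⟩ := intermediate_value_Icc' hab hf ⟨hb.le, ha.le⟩
    exact absurd hs0 (h0 s hs)
  · exact Or.inl ⟨ha, hb⟩

theorem det_pos_of_coercive {d : ℕ} (M : Matrix (Fin d) (Fin d) ℝ)
    (h : ∀ v : Fin d → ℝ, v ≠ 0 → 0 < v ⬝ᵥ (M *ᵥ v)) : 0 < M.det := by
  have hc : Continuous fun t : ℝ => ((1 - t) • (1 : Matrix (Fin d) (Fin d) ℝ) + t • M).det := by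
    apply Continuous.matrix_det
    fun_prop
  have hs := sign_const (f := fun t : ℝ => ((1 - t) • (1 : Matrix (Fin d) (Fin d) ℝ) + t • M).det)
    (zero_le_one (α := ℝ)) hc.continuousOn (by
      intro t ht h0
      obtain ⟨v, hv, hv0⟩ := Matrix.exists_mulVec_eq_zero_iff.2 h0
      have h1 : v ⬝ᵥ (((1 - t) • (1 : Matrix (Fin d) (Fin d) ℝ) + t • M) *ᵥ v) = 0 := by
        rw [hv0, dotProduct_zero]
      rw [Matrix.add_mulVec, Matrix.smul_mulVec, Matrix.smul_mulVec, Matrix.one_mulVec,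
        dotProduct_add, dotProduct_smul, dotProduct_smul, smul_eq_mul, smul_eq_mul] at h1
      have h2 : 0 < v ⬝ᵥ v := by
        have := (dotProduct_self_star_pos_iff (v := v)).2 hv
        simpa using this
      have h3 := h v hv
      rcases eq_or_lt_of_le ht.1 with h4 | h4
      · rw [← h4, sub_zero, one_mul, zero_mul, add_zero] at h1; linarith
      · have h5 : 0 ≤ (1 - t) * (v ⬝ᵥ v) := mul_nonneg (by linarith [ht.2]) h2.le
        have h6 : 0 < t * (v ⬝ᵥ (M *ᵥ v)) := mul_pos h4 h3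
        linarith)
  rcases hs with hs | hs
  · simpa using hs.2
  · have := hs.1
    simp at this
    linarith

theorem continuousOn_mat {w : ℝ → ℍ → ℝ} (hw : ∀ s, Cts (w s))
    (hc : ∀ s ∈ Icc (0:ℝ) 1, ∀ ε : ℝ, 0 < ε → ∃ δ : ℝ, 0 < δ ∧ ∀ s' ∈ Icc (0:ℝ) 1, |s - s'| < δ →
      ∀ x : ℍ, x ≠ 0 → |w s x - w s' x| ≤ ε) (y η : SF) :
    ContinuousOn (fun s => Bil (w s) y η) (Icc (0:ℝ) 1) := by
  have hI : IntegrableOn (fun x => |y x * (psi η) x|) shell :=
    integrableOn_shell (y.continuousOn.mul (psi η).continuousOn).abs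
  set C : ℝ := ∫ x in shell, |y x * (psi η) x| with hC
  have hC0 : 0 ≤ C := setIntegral_nonneg measurableSet_shell fun _ _ => abs_nonneg _
  rw [Metric.continuousOn_iff]
  intro s hs ε hε
  obtain ⟨δ, hδ, h⟩ := hc s hs (ε / (2 * (C + 1))) (by positivity)
  refine ⟨δ, hδ, fun s' hs' hd => ?_⟩
  rw [Real.dist_eq] at hd ⊢
  have h1 : Bil (w s') y η - Bil (w s) y η
      = ∫ x in shell, (w s' x - w s x) * (y x * (psi η) x) := by
    simp only [Bil]
    rw [← integral_sub (int3 (hw s') y (psi η)) (int3 (hw s) y (psi η))]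
    congr 1; funext x; ring
  rw [h1]
  have h2 : |∫ x in shell, (w s' x - w s x) * (y x * (psi η) x)|
      ≤ ∫ x in shell, ε / (2 * (C + 1)) * |y x * (psi η) x| := by
    apply abs_integral_le_integral_abs.trans
    apply setIntegral_mono_on
    · exact (integrableOn_shell (((hw s').cont.sub (hw s).cont).mul
        (y.continuousOn.mul (psi η).continuousOn)).abs)
    · exact hI.const_mul _
    · exact measurableSet_shell
    · intro x hx
      rw [abs_mul]
      apply mul_le_mul_of_nonneg_right _ (abs_nonneg _)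
      rw [abs_sub_comm]
      exact h s' hs' (by rwa [abs_sub_comm]) x (ne_zero_of_mem_shell hx)
  rw [integral_const_mul, ← hC] at h2
  have h3 : ε / (2 * (C + 1)) * C < ε := by
    rw [div_mul_eq_mul_div, div_lt_iff₀ (by positivity)]
    nlinarith
  exact lt_of_le_of_lt h2 h3

/-- **DET.** -/
theorem det_of (hM : MNFacts) (hP : PsiFacts) : DetFacts := by
  have fin : ∀ (W : Submodule ℝ SF) (n : ℕ), W ≤ UN n →
      ∃ d : ℕ, Nonempty (Module.Basis (Fin d) ℝ W) := by
    intro W n hW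
    have := hM.finite n
    have : FiniteDimensional ℝ W := Submodule.finiteDimensional_of_le (hW.trans fun F hF => hF.1)
    exact ex_basis W
  have bas : ∀ (W : Submodule ℝ SF) (n : ℕ) (w : ℍ → ℝ), Cts w → W ≤ UN n →
    ∀ (d d' : ℕ) (b : Module.Basis (Fin d) ℝ W) (b' : Module.Basis (Fin d') ℝ W),
    (0 < detW b w ↔ 0 < detW b' w) ∧ (detW b w < 0 ↔ detW b' w < 0) := by
    intro W n w hw hW d d' b b'
    have hd : d = d' := card_eq b b'
    subst hd
    obtain ⟨c, hc, h⟩ := det_change hP hw hW b b'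
    have hc2 : 0 < c ^ 2 := by positivity
    rw [h]
    exact ⟨(mul_pos_iff_of_pos_left hc2).symm, by
      constructor
      · exact fun h => mul_neg_of_pos_of_neg hc2 h
      · intro h
        by_contra h3
        push Not at h3
        exact absurd h (not_lt.2 (mul_nonneg hc2.le h3))⟩
  refine ⟨bas, ?_, ?_, ?_, ?_, ?_⟩
  · intro W n w hw hW h
    obtain ⟨d, ⟨b⟩⟩ := fin W n hW
    have h0 := (kernel_zero hP hw hW b).1 h
    rcases lt_or_gt_of_ne h0 with h1 | h1
    · exact Or.inr ⟨_, _, h1⟩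
    · exact Or.inl ⟨_, _, h1⟩
  · rintro W n w hw hW (⟨d, b, h⟩ | ⟨d, b, h⟩)
    · exact (kernel_zero hP hw hW b).2 h.ne'
    · exact (kernel_zero hP hw hW b).2 h.ne
  · intro W n w hw hW h
    obtain ⟨d, ⟨b⟩⟩ := fin W n hW
    refine ⟨d, b, ?_⟩
    rw [detW_eq]
    apply det_pos_of_coercive
    intro v hv
    rw [dot_mat hP hw hW]
    apply h _ (Subtype.mem _)
    intro h0
    have h3 : (∑ j, v j • b j : W) = 0 := Subtype.ext h0
    exact hv (li_zero b v h3)
  · intro W n w hw hW hc a ha b hb hab h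
    obtain ⟨d, ⟨bb⟩⟩ := fin W n hW
    have hcont : ContinuousOn (fun s => detW bb (w s)) (Icc a b) := by
      have h1 : ContinuousOn (fun s => mat bb (w s)) (Icc a b) := by
        apply continuousOn_pi.2
        intro i
        apply continuousOn_pi.2
        intro j
        exact (continuousOn_mat hw hc _ _).mono (Icc_subset_Icc ha.1 hb.2)
      exact continuous_id.matrix_det.comp_continuousOn h1
    rcases sign_const hab hcont (fun s hs =>
      (kernel_zero hP (hw s) hW bb).1 (h s hs)) with h1 | h1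
    · exact Or.inl ⟨⟨_, _, h1.1⟩, ⟨_, _, h1.2⟩⟩
    · exact Or.inr ⟨⟨_, _, h1.1⟩, ⟨_, _, h1.2⟩⟩
  · rintro W n w hw hW ⟨⟨d, b, h⟩, ⟨d', b', h'⟩⟩
    have := (bas W n w hw hW d d' b b').1.1 h
    linarith

end Pool.Agent.MP85963d.H72
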