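import Mathlib
import Pool.Agent.Lib.MP_85963d_gt.Interfaces
import Pool.Agent.Lib.MP_85963d_gt.CurveLength

/-!
# Module GEO: from gauges on frames to convex bodies
-/

set_option autoImplicit false

open MeasureTheory Set Filter Topology Quaternion
open scoped Real Pointwise

namespace Pool.Agent.MP85963d.H72

/-! ### copied from the library (the file with the pinched case has a name clash) -/

theorem fu_ne_zero {x : ℍ} (hx : x ≠ 0) : fu x ≠ 0 := by
  intro h0
  have := norm_fu hx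
  simp [h0] at this

theorem mul_rot_ne_zero {a : ℍ} (h : IsImUnit a) {x : ℍ} (hx : x ≠ 0) (t : ℝ) :
    x * rot a t ≠ 0 := mul_ne_zero hx (rot_ne_zero h t)

theorem hasDerivAt_fuK (x : ℍ) (t : ℝ) :
    HasDerivAt (fun t => fu (x * rot qK t)) (fv (x * rot qK t)) t := by
  simp only [fu_rotK, fv_rotK]
  have := ((Real.hasDerivAt_cos t).smul_const (fu x)).fun_add
    ((Real.hasDerivAt_sin t).smul_const (fv x))
  convert! this using 1
  module

theorem hasDerivAt_fvK (x : ℍ) (t : ℝ) :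
    HasDerivAt (fun t => fv (x * rot qK t)) (-fu (x * rot qK t)) t := by
  simp only [fu_rotK, fv_rotK]
  have := ((Real.hasDerivAt_cos t).smul_const (fv x)).fun_sub
    ((Real.hasDerivAt_sin t).smul_const (fu x))
  convert! this using 1
  module

theorem continuous_comp_rot {a : ℍ} (ha : IsImUnit a) {H : ℍ → ℝ} (hH : ContinuousOn H {0}ᶜ)
    {z : ℍ} (hz : z ≠ 0) : Continuous fun t => H (z * rot a t) := by
  rw [← continuousOn_univ]
  exact hH.comp ((continuous_const.mul (continuous_rot a)).continuousOn)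
    fun t _ => mul_rot_ne_zero ha hz t

/-- the relative boundary of a central section is the unit gauge sphere in the plane -/
theorem intrinsicFrontier_section {K : Set E3} (hK : IsCompact K) (hc : Convex ℝ K)
    (h0 : K ∈ 𝓝 (0:E3)) (e : E3) :
    intrinsicFrontier ℝ (K ∩ {x : E3 | inner ℝ x e = (0:ℝ)})
      = {x : E3 | inner ℝ x e = (0:ℝ) ∧ gauge K x = 1} := by
  set S : Set E3 := K ∩ {x : E3 | inner ℝ x e = (0:ℝ)} with hS
  have hKcl : IsClosed K := hK.isClosed
  have hScl : IsClosed S :=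
    hKcl.inter (isClosed_eq (continuous_id.inner continuous_const) continuous_const)
  have h0S : (0:E3) ∈ S := ⟨mem_of_mem_nhds h0, by simp⟩
  have hspan : ∀ y ∈ affineSpan ℝ S, inner ℝ y e = (0:ℝ) := by
    have h1 : affineSpan ℝ S ≤ ((ℝ ∙ e)ᗮ).toAffineSubspace := by
      rw [affineSpan_le]
      intro y hy
      rw [SetLike.mem_coe, Submodule.mem_toAffineSubspace,
        Submodule.mem_orthogonal_singleton_iff_inner_left]
      exact hy.2
    intro y hy
    have h2 := h1 hy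
    rwa [Submodule.mem_toAffineSubspace,
      Submodule.mem_orthogonal_singleton_iff_inner_left] at h2
  have hAcl : IsClosed ((↑) ⁻¹' S : Set (affineSpan ℝ S)) := hScl.preimage continuous_subtype_val
  ext x
  constructor
  · rintro ⟨y, hy, rfl⟩
    rw [hAcl.frontier_eq] at hy
    obtain ⟨hyS, hyi⟩ := hy
    refine ⟨hyS.2, ?_⟩
    refine le_antisymm (gauge_le_one_of_mem hyS.1) ?_
    by_contra hlt
    rw [not_le] at hlt
    apply hyi
    rw [gauge_lt_one_iff_mem_interior hc h0] at hlt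
    rw [mem_interior]
    refine ⟨(fun w : affineSpan ℝ S => (w : E3)) ⁻¹' interior K, ?_,
      isOpen_interior.preimage continuous_subtype_val, hlt⟩
    intro w hw
    exact ⟨interior_subset hw, hspan w w.2⟩
  · rintro ⟨hxe, hx1⟩
    have hxK : x ∈ K := by
      have := (gauge_le_one_iff_mem_closure hc h0).1 hx1.le
      rwa [hKcl.closure_eq] at this
    have hxS : x ∈ S := ⟨hxK, hxe⟩
    refine ⟨⟨x, subset_affineSpan ℝ S hxS⟩, ?_, rfl⟩
    rw [hAcl.frontier_eq]
    refine ⟨hxS, ?_⟩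
    intro hint
    have hmem : ∀ s : ℝ, s • x ∈ affineSpan ℝ S := by
      intro s
      have := AffineMap.lineMap_mem s (subset_affineSpan ℝ S h0S) (subset_affineSpan ℝ S hxS)
      simpa [AffineMap.lineMap_apply] using this
    let c : ℝ → affineSpan ℝ S := fun s => ⟨s • x, hmem s⟩
    have hcc : Continuous c := (continuous_id.smul continuous_const).subtype_mk _
    have hc1 : c 1 = ⟨x, subset_affineSpan ℝ S hxS⟩ := by
      apply Subtype.ext
      simp [c]
    have hn : c ⁻¹' (interior ((↑) ⁻¹' S : Set (affineSpan ℝ S))) ∈ 𝓝 (1:ℝ) := by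
      apply (isOpen_interior.preimage hcc).mem_nhds
      rw [mem_preimage, hc1]
      exact hint
    have hn2 : ∀ᶠ s in 𝓝[>] (1:ℝ),
        s ∈ c ⁻¹' (interior ((↑) ⁻¹' S : Set (affineSpan ℝ S))) :=
      mem_nhdsWithin_of_mem_nhds hn
    obtain ⟨s, hs1, hs2⟩ := (hn2.and self_mem_nhdsWithin).exists
    have h3' : c s ∈ ((↑) ⁻¹' S : Set (affineSpan ℝ S)) := interior_subset hs1
    have h3 : s • x ∈ S := h3'
    have h4 : gauge K (s • x) ≤ 1 := gauge_le_one_of_mem h3.1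
    have hs2' : (1:ℝ) < s := hs2
    rw [gauge_smul_of_nonneg (by linarith), hx1, smul_eq_mul, mul_one] at h4
    linarith

/-- expansion in an orthonormal triple -/
theorem expand3 {u v e : E3} (hu : ‖u‖ = 1) (hv : ‖v‖ = 1) (he : ‖e‖ = 1)
    (huv : inner ℝ u v = (0:ℝ)) (hue : inner ℝ u e = (0:ℝ)) (hve : inner ℝ v e = (0:ℝ))
    {x : E3} (hx : inner ℝ x e = (0:ℝ)) :
    x = (inner ℝ u x : ℝ) • u + (inner ℝ v x : ℝ) • v := by
  have hon : Orthonormal ℝ ![u, v, e] := by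
    rw [orthonormal_iff_ite]
    intro i j
    fin_cases i <;> fin_cases j <;>
      simp [hu, hv, he, huv, hue, hve, real_inner_comm u v, real_inner_comm u e,
        real_inner_comm v e]
  have hspan : Submodule.span ℝ (Set.range ![u, v, e]) = ⊤ := by
    apply hon.linearIndependent.span_eq_top_of_card_eq_finrank
    simp
  have h1 := (OrthonormalBasis.mk hon hspan.ge).sum_repr' x
  rw [Fin.sum_univ_three] at h1
  simp only [OrthonormalBasis.coe_mk] at h1
  have h2 : inner ℝ e x = (0:ℝ) := by rw [real_inner_comm]; exact hx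
  have h3 : (inner ℝ u x : ℝ) • u + (inner ℝ v x : ℝ) • v + (inner ℝ e x : ℝ) • e = x := h1
  rw [h2, zero_smul, add_zero] at h3
  exact h3.symm

/-- polar coordinates with angle in `[0, 2π)` -/
theorem exists_polar (a b : ℝ) : ∃ t ∈ Ico (0:ℝ) (2 * π), ∃ r : ℝ, 0 ≤ r ∧
    a = r * Real.cos t ∧ b = r * Real.sin t := by
  set w : ℂ := ⟨a, b⟩
  have h1 : ‖w‖ * Real.cos w.arg = a := Complex.norm_mul_cos_arg w
  have h2 : ‖w‖ * Real.sin w.arg = b := Complex.norm_mul_sin_arg w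
  have h3 := Complex.neg_pi_lt_arg w
  have h4 := Complex.arg_le_pi w
  have hpi := Real.pi_pos
  by_cases h : 0 ≤ w.arg
  · exact ⟨w.arg, ⟨h, by linarith⟩, ‖w‖, norm_nonneg _, h1.symm, h2.symm⟩
  · rw [not_le] at h
    refine ⟨w.arg + 2 * π, ⟨by linarith, by linarith⟩, ‖w‖, norm_nonneg _, ?_, ?_⟩
    · rw [Real.cos_add_two_pi]; exact h1.symm
    · rw [Real.sin_add_two_pi]; exact h2.symm

/-! ### frames -/

theorem im3_inj {a b : ℍ} (hre : a.re = b.re) (h : im3 a = im3 b) : a = b := by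
  have h0 := congrArg (fun v : E3 => v 0) h
  have h1 := congrArg (fun v : E3 => v 1) h
  have h2 := congrArg (fun v : E3 => v 2) h
  simp at h0 h1 h2
  apply Quaternion.ext <;> assumption

theorem qI_imI : qI.imI = 1 := rfl
theorem qI_imJ : qI.imJ = 0 := rfl
theorem qI_imK : qI.imK = 0 := rfl

theorem exists_rot_of_fu {x x' : ℍ} (hx : x ≠ 0) (hx' : x' ≠ 0) (h : fu x = fu x') :
    ∃ r t : ℝ, r ≠ 0 ∧ x = r • (x' * rot qI t) := by
  have h1 : conjQ x qI = conjQ x' qI := im3_inj (by rw [re_conjQ hx, re_conjQ hx']) h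
  have h1' : x * qI * x⁻¹ = x' * qI * x'⁻¹ := h1
  obtain ⟨y, hy⟩ : ∃ y : ℍ, y = x'⁻¹ * x := ⟨_, rfl⟩
  have hy0 : y ≠ 0 := by rw [hy]; exact mul_ne_zero (inv_ne_zero hx') hx
  have h3 : x * qI = x' * qI * x'⁻¹ * x := by
    rw [← h1', mul_assoc (x * qI), inv_mul_cancel₀ hx, mul_one]
  have h2 : y * qI = qI * y := by
    calc y * qI = x'⁻¹ * (x * qI) := by rw [hy, mul_assoc]
      _ = x'⁻¹ * (x' * qI * x'⁻¹ * x) := by rw [h3]
      _ = qI * y := by rw [hy]; simp only [mul_assoc]; rw [inv_mul_cancel_left₀ hx']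
  have hJ := congrArg (fun q : ℍ => q.imK) h2
  have hK := congrArg (fun q : ℍ => q.imJ) h2
  simp [Quaternion.imJ_mul, Quaternion.imK_mul, qI_re, qI_imI, qI_imJ, qI_imK] at hJ hK
  have hJ' : y.imJ = 0 := by linarith
  have hK' : y.imK = 0 := by linarith
  set w : ℂ := ⟨y.re, y.imI⟩ with hw
  have hw0 : w ≠ 0 := by
    intro h0
    apply hy0
    have a1 : y.re = 0 := by simpa [hw] using congrArg Complex.re h0
    have a2 : y.imI = 0 := by simpa [hw] using congrArg Complex.im h0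
    apply Quaternion.ext <;> assumption
  have e1 : ‖w‖ * Real.cos w.arg = y.re := Complex.norm_mul_cos_arg w
  have e2 : ‖w‖ * Real.sin w.arg = y.imI := Complex.norm_mul_sin_arg w
  refine ⟨‖w‖, 2 * w.arg, norm_ne_zero_iff.2 hw0, ?_⟩
  have hyr : y = ‖w‖ • rot qI (2 * w.arg) := by
    have e3 : 2 * w.arg / 2 = w.arg := by ring
    apply Quaternion.ext
    · simp [rot, e3, qI_re, e1]
    · simp [rot, e3, qI_imI, e2]
    · simp [rot, qI_imJ, hJ']
    · simp [rot, qI_imK, hK']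
  have hxy : x = x' * y := by rw [hy, mul_inv_cancel_left₀ hx']
  rw [hxy, hyr, mul_smul_comm]

theorem p_congr {p q : ℍ → ℝ} (h : Gaugeable p q) {x x' : ℍ} (hx : x ≠ 0) (hx' : x' ≠ 0)
    (hu : fu x = fu x') : p x = p x' := by
  obtain ⟨r, t, hr, e⟩ := exists_rot_of_fu hx hx' hu
  rw [e, h.cts.hom r _ hr (mul_ne_zero hx' (rot_ne_zero isImUnit_I t)), h.isU.rotI]

theorem ne_zero_of_one_lt {x : ℍ} (h : 1 < ‖x‖) : x ≠ 0 := by
  intro h0; rw [h0, norm_zero] at h; linarith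

/-- a frame point over a direction -/
noncomputable def pt (ξ : E3) : ℍ := by
  classical
  exact if h : ‖‖ξ‖⁻¹ • ξ‖ = 1 then (exists_fu h).choose else 1

theorem norm_unit {ξ : E3} (hξ : ξ ≠ 0) : ‖‖ξ‖⁻¹ • ξ‖ = 1 := by
  rw [norm_smul, norm_inv, norm_norm, inv_mul_cancel₀ (norm_ne_zero_iff.2 hξ)]

theorem pt_spec {ξ : E3} (hξ : ξ ≠ 0) : pt ξ ≠ 0 ∧ fu (pt ξ) = ‖ξ‖⁻¹ • ξ := by
  have h := norm_unit hξ
  have e : pt ξ = (exists_fu h).choose := by rw [pt, dif_pos h]
  have hs := (exists_fu h).choose_spec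
  rw [← e] at hs
  exact ⟨ne_zero_of_one_lt hs.1, hs.2.2⟩

/-- the gauge on `ℝ³` -/
noncomputable def Phi (p : ℍ → ℝ) (ξ : E3) : ℝ := ‖ξ‖ * p (pt ξ)

theorem Phi_zero (p : ℍ → ℝ) : Phi p 0 = 0 := by simp [Phi]

theorem Phi_smul_fu {p q : ℍ → ℝ} (h : Gaugeable p q) {x : ℍ} (hx : x ≠ 0) {r : ℝ} (hr : 0 ≤ r) :
    Phi p (r • fu x) = r * p x := by
  rcases hr.eq_or_lt with h0 | h0
  · rw [← h0, zero_smul, Phi_zero, zero_mul]
  · have hne : r • fu x ≠ 0 := smul_ne_zero h0.ne' (fu_ne_zero hx)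
    have hn : ‖r • fu x‖ = r := by
      rw [norm_smul, norm_fu hx, mul_one, Real.norm_of_nonneg hr]
    obtain ⟨h1, h2⟩ := pt_spec hne
    rw [hn, smul_smul, inv_mul_cancel₀ h0.ne', one_smul] at h2
    rw [Phi, hn, p_congr h h1 hx h2]

theorem Phi_smul_fu' {p q : ℍ → ℝ} (h : Gaugeable p q) {x : ℍ} (hx : x ≠ 0) (r : ℝ) :
    Phi p (r • fu x) = |r| * p x := by
  rcases le_total 0 r with h0 | h0
  · rw [Phi_smul_fu h hx h0, abs_of_nonneg h0]
  · have e : r • fu x = (-r) • fu (x * qK) := by rw [fu_K, smul_neg, neg_smul, neg_neg]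
    have hx' : x * qK ≠ 0 := by
      refine mul_ne_zero hx ?_
      intro h1
      have := isImUnit_K.norm_eq
      simp [h1] at this
    rw [e, Phi_smul_fu h hx' (by linarith), h.isU.mulK, abs_of_nonpos h0]

theorem exists_repr (ξ : E3) : ∃ x : ℍ, x ≠ 0 ∧ ξ = ‖ξ‖ • fu x := by
  by_cases hξ : ξ = 0
  · exact ⟨1, one_ne_zero, by simp [hξ]⟩
  · obtain ⟨h1, h2⟩ := pt_spec hξ
    refine ⟨pt ξ, h1, ?_⟩
    rw [h2, smul_smul, mul_inv_cancel₀ (norm_ne_zero_iff.2 hξ), one_smul]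

theorem Phi_smul {p q : ℍ → ℝ} (h : Gaugeable p q) (c : ℝ) (ξ : E3) :
    Phi p (c • ξ) = |c| * Phi p ξ := by
  obtain ⟨x, hx, e⟩ := exists_repr ξ
  rw [e, smul_smul, Phi_smul_fu' h hx, Phi_smul_fu' h hx, abs_mul, mul_assoc]

theorem Phi_nonneg {p q : ℍ → ℝ} (h : Gaugeable p q) (ξ : E3) : 0 ≤ Phi p ξ := by
  obtain ⟨x, hx, e⟩ := exists_repr ξ
  rw [e, Phi_smul_fu h hx (norm_nonneg _)]
  exact mul_nonneg (norm_nonneg _) (h.pos x hx).le

/-- expansion in an orthonormal triple -/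
theorem expand3' {u v e : E3} (hu : ‖u‖ = 1) (hv : ‖v‖ = 1) (he : ‖e‖ = 1)
    (huv : inner ℝ u v = (0:ℝ)) (hue : inner ℝ u e = (0:ℝ)) (hve : inner ℝ v e = (0:ℝ)) (x : E3) :
    x = (inner ℝ u x : ℝ) • u + (inner ℝ v x : ℝ) • v + (inner ℝ e x : ℝ) • e := by
  have hon : Orthonormal ℝ ![u, v, e] := by
    rw [orthonormal_iff_ite]
    intro i j
    fin_cases i <;> fin_cases j <;>
      simp [hu, hv, he, huv, hue, hve, real_inner_comm u v, real_inner_comm u e,
        real_inner_comm v e]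
  have hspan : Submodule.span ℝ (Set.range ![u, v, e]) = ⊤ := by
    apply hon.linearIndependent.span_eq_top_of_card_eq_finrank
    simp
  have h1 := (OrthonormalBasis.mk hon hspan.ge).sum_repr' x
  rw [Fin.sum_univ_three] at h1
  simp only [OrthonormalBasis.coe_mk] at h1
  exact h1.symm

/-- two vectors in a common frame plane -/
theorem exists_plane (ξ η : E3) : ∃ (z : ℍ) (a c d : ℝ), z ≠ 0 ∧ 0 ≤ a ∧ 0 ≤ d ∧
    ξ = a • fu z ∧ η = c • fu z + d • fv z := by
  obtain ⟨x, hx, e⟩ := exists_repr ξ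
  have h1 := expand3' (norm_fu hx) (norm_fv hx) (norm_fe hx) (inner_fu_fv hx) (inner_fu_fe hx)
    (inner_fv_fe hx) η
  obtain ⟨t, -, r, hr, ha, hb⟩ := exists_polar (inner ℝ (fv x) η) (inner ℝ (fe x) η)
  refine ⟨x * rot qI t, ‖ξ‖, inner ℝ (fu x) η, r, mul_rot_ne_zero isImUnit_I hx t, norm_nonneg _,
    hr, ?_, ?_⟩
  · rw [fu_rotI]; exact e
  · rw [fu_rotI, fv_rotI, smul_add, smul_smul, smul_smul, ← ha, ← hb, ← add_assoc]
    exact h1

theorem Phi_add {p q : ℍ → ℝ} (h : Gaugeable p q) (ξ η : E3) :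
    Phi p (ξ + η) ≤ Phi p ξ + Phi p η := by
  obtain ⟨z, a, c, d, hz, ha, hd, e1, e2⟩ := exists_plane ξ η
  rcases hd.eq_or_lt with hd0 | hd0
  · have e3 : ξ + η = (a + c) • fu z := by
      rw [e1, e2, ← hd0, zero_smul, add_zero, add_smul]
    have e4 : η = c • fu z := by rw [e2, ← hd0, zero_smul, add_zero]
    rw [e3, e1, e4, Phi_smul_fu' h hz, Phi_smul_fu' h hz, Phi_smul_fu' h hz, ← add_mul]
    exact mul_le_mul_of_nonneg_right (abs_add_le a c) (h.pos z hz).le
  · rcases ha.eq_or_lt with ha0 | ha0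
    · rw [e1, ← ha0, zero_smul, zero_add, Phi_zero, zero_add]
    · obtain ⟨θ₃, ht3, b, hb, hc3, hd3⟩ := exists_polar c d
      obtain ⟨θ₂, ht2, r, hr, hc2, hd2⟩ := exists_polar (a + c) d
      have hpi := Real.pi_pos
      have hb0 : 0 < b := by
        rcases hb.eq_or_lt with h0 | h0
        · rw [← h0, zero_mul] at hd3; linarith
        · exact h0
      have hr0 : 0 < r := by
        rcases hr.eq_or_lt with h0 | h0
        · rw [← h0, zero_mul] at hd2; linarith
        · exact h0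
      have hs3 : 0 < Real.sin θ₃ := by
        rw [hd3] at hd0
        exact (mul_pos_iff_of_pos_left hb0).1 hd0
      have hs2 : 0 < Real.sin θ₂ := by
        have : 0 < r * Real.sin θ₂ := by rw [← hd2]; exact hd0
        exact (mul_pos_iff_of_pos_left hr0).1 this
      have lt_pi : ∀ θ : ℝ, θ ∈ Ico (0:ℝ) (2 * π) → 0 < Real.sin θ → 0 < θ ∧ θ < π := by
        intro θ hθ hs
        constructor
        · rcases hθ.1.eq_or_lt with h0 | h0
          · rw [← h0, Real.sin_zero] at hs; exact absurd hs (lt_irrefl _)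
          · exact h0
        · by_contra hcon
          rw [not_lt] at hcon
          have h1 : Real.sin θ ≤ 0 := by
            have : Real.sin θ = - Real.sin (θ - π) := by rw [Real.sin_sub_pi, neg_neg]
            rw [this]
            have := Real.sin_nonneg_of_nonneg_of_le_pi (x := θ - π) (by linarith) (by linarith [hθ.2])
            linarith
          linarith
      obtain ⟨h31, h32⟩ := lt_pi θ₃ ht3 hs3
      obtain ⟨h21, h22⟩ := lt_pi θ₂ ht2 hs2
      have hs32 : r * Real.sin (θ₃ - θ₂) = a * Real.sin θ₃ := by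
        rw [Real.sin_sub]
        have f1 : r * (Real.sin θ₃ * Real.cos θ₂ - Real.cos θ₃ * Real.sin θ₂)
            = Real.sin θ₃ * (r * Real.cos θ₂) - Real.cos θ₃ * (r * Real.sin θ₂) := by ring
        rw [f1, ← hc2, ← hd2, hc3, hd3]; ring
      have h23 : θ₂ < θ₃ := by
        by_contra hcon
        rw [not_lt] at hcon
        have h1 : Real.sin (θ₃ - θ₂) ≤ 0 := by
          have h2 := Real.sin_nonneg_of_nonneg_of_le_pi (x := θ₂ - θ₃) (by linarith) (by linarith)
          have h3 : Real.sin (θ₃ - θ₂) = - Real.sin (θ₂ - θ₃) := by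
            rw [← Real.sin_neg]; congr 1; ring
          linarith
        have h4 : 0 < a * Real.sin θ₃ := mul_pos ha0 hs3
        have h5 : r * Real.sin (θ₃ - θ₂) ≤ 0 := mul_nonpos_of_nonneg_of_nonpos hr h1
        linarith
      have hsine := h.sine z hz 0 θ₂ θ₃ h21 h23 (by linarith)
      rw [rot_zero, mul_one, sub_zero, sub_zero] at hsine
      have f1 : ξ + η = r • fu (z * rot qK θ₂) := by
        rw [fu_rotK, smul_add, smul_smul, smul_smul, ← hc2, ← hd2, e1, e2, add_smul, add_assoc]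
      have f2 : η = b • fu (z * rot qK θ₃) := by
        rw [fu_rotK, smul_add, smul_smul, smul_smul, ← hc3, ← hd3, e2]
      rw [f1, e1, f2, Phi_smul_fu h (mul_rot_ne_zero isImUnit_K hz _) hr, Phi_smul_fu h hz ha,
        Phi_smul_fu h (mul_rot_ne_zero isImUnit_K hz _) hb]
      have g1 : Real.sin θ₃ * (r * p (z * rot qK θ₂))
          ≤ Real.sin θ₃ * (a * p z + b * p (z * rot qK θ₃)) := by
        have g2 := mul_le_mul_of_nonneg_left hsine hr
        have g3 : r * (p z * Real.sin (θ₃ - θ₂) + p (z * rot qK θ₃) * Real.sin θ₂)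
            = p z * (r * Real.sin (θ₃ - θ₂)) + p (z * rot qK θ₃) * (r * Real.sin θ₂) := by ring
        rw [g3, hs32, ← hd2, hd3] at g2
        linarith
      exact le_of_mul_le_mul_left g1 hs3

theorem bounds {p q : ℍ → ℝ} (h : Gaugeable p q) : ∃ m M : ℝ, 0 < m ∧ 0 < M ∧
    ∀ x : ℍ, x ≠ 0 → m ≤ p x ∧ p x ≤ M := by
  have hne : (shell).Nonempty := ⟨1, by simp [shell]⟩
  have hc := h.cts.cont.mono shell_subset
  obtain ⟨x₁, hx₁, h₁⟩ := isCompact_shell.exists_isMinOn hne hc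
  obtain ⟨x₂, hx₂, h₂⟩ := isCompact_shell.exists_isMaxOn hne hc
  refine ⟨p x₁, p x₂, h.pos _ (ne_zero_of_mem_shell hx₁), h.pos _ (ne_zero_of_mem_shell hx₂), ?_⟩
  intro x hx
  have hn : ‖x‖ ≠ 0 := norm_ne_zero_iff.2 hx
  have e : p (‖x‖⁻¹ • x) = p x := h.cts.hom _ x (inv_ne_zero hn) hx
  have hm : ‖x‖⁻¹ • x ∈ shell := by
    have : ‖‖x‖⁻¹ • x‖ = 1 := by rw [norm_smul, norm_inv, norm_norm, inv_mul_cancel₀ hn]
    simp [shell, this]
  rw [← e]
  exact ⟨h₁ hm, h₂ hm⟩

theorem Phi_bounds {p q : ℍ → ℝ} (h : Gaugeable p q) : ∃ m M : ℝ, 0 < m ∧ 0 < M ∧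
    ∀ ξ : E3, m * ‖ξ‖ ≤ Phi p ξ ∧ Phi p ξ ≤ M * ‖ξ‖ := by
  obtain ⟨m, M, hm, hM, hb⟩ := bounds h
  refine ⟨m, M, hm, hM, fun ξ => ?_⟩
  obtain ⟨x, hx, e⟩ := exists_repr ξ
  have h1 : Phi p ξ = ‖ξ‖ * p x := by
    conv_lhs => rw [e]
    exact Phi_smul_fu h hx (norm_nonneg _)
  rw [h1]
  have := hb x hx
  have hn := norm_nonneg ξ
  constructor <;> nlinarith

/-- the body -/
def body (p : ℍ → ℝ) : Set E3 := {ξ | Phi p ξ ≤ 1}

theorem Phi_neg {p q : ℍ → ℝ} (h : Gaugeable p q) (ξ : E3) : Phi p (-ξ) = Phi p ξ := by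
  have := Phi_smul h (-1) ξ
  simpa using this

theorem continuous_Phi {p q : ℍ → ℝ} (h : Gaugeable p q) : Continuous (Phi p) := by
  obtain ⟨m, M, hm, hM, hb⟩ := Phi_bounds h
  have h1 : ∀ ξ η : E3, |Phi p ξ - Phi p η| ≤ M * ‖ξ - η‖ := by
    intro ξ η
    have a1 := Phi_add h (ξ - η) η
    have a2 := Phi_add h (η - ξ) ξ
    rw [sub_add_cancel] at a1 a2
    have a3 := (hb (ξ - η)).2
    have a4 := (hb (η - ξ)).2
    rw [norm_sub_rev] at a4
    rw [abs_le]
    constructor <;> linarith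
  have h2 : LipschitzWith M.toNNReal (Phi p) := by
    apply LipschitzWith.of_dist_le_mul
    intro ξ η
    rw [Real.dist_eq, dist_eq_norm, Real.coe_toNNReal M hM.le]
    exact h1 ξ η
  exact h2.continuous

theorem isCompact_body {p q : ℍ → ℝ} (h : Gaugeable p q) : IsCompact (body p) := by
  obtain ⟨m, M, hm, hM, hb⟩ := Phi_bounds h
  have h1 : IsClosed (body p) := isClosed_le (continuous_Phi h) continuous_const
  have h2 : body p ⊆ Metric.closedBall 0 (1 / m) := by
    intro ξ hξ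
    have h3 := (hb ξ).1
    have h4 : Phi p ξ ≤ 1 := hξ
    rw [mem_closedBall_zero_iff, le_div_iff₀ hm]
    linarith
  exact (isCompact_closedBall 0 (1 / m)).of_isClosed_subset h1 h2

theorem convex_body {p q : ℍ → ℝ} (h : Gaugeable p q) : Convex ℝ (body p) := by
  intro ξ hξ η hη a b ha hb hab
  have h1 : Phi p (a • ξ + b • η) ≤ a * Phi p ξ + b * Phi p η := by
    have := Phi_add h (a • ξ) (b • η)
    rwa [Phi_smul h, Phi_smul h, abs_of_nonneg ha, abs_of_nonneg hb] at this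
  have h2 : Phi p ξ ≤ 1 := hξ
  have h3 : Phi p η ≤ 1 := hη
  change Phi p (a • ξ + b • η) ≤ 1
  nlinarith

theorem nhds_body {p q : ℍ → ℝ} (h : Gaugeable p q) : body p ∈ 𝓝 (0 : E3) := by
  have h1 : IsOpen {ξ : E3 | Phi p ξ < 1} := isOpen_lt (continuous_Phi h) continuous_const
  have h2 : (0 : E3) ∈ {ξ : E3 | Phi p ξ < 1} := by
    change Phi p 0 < 1
    rw [Phi_zero]; exact one_pos
  exact Filter.mem_of_superset (h1.mem_nhds h2) fun ξ (hξ : Phi p ξ < 1) => hξ.le

theorem gauge_body {p q : ℍ → ℝ} (h : Gaugeable p q) (ξ : E3) : gauge (body p) ξ = Phi p ξ := by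
  have hmem : ∀ r : ℝ, 0 < r → (ξ ∈ r • body p ↔ Phi p ξ ≤ r) := by
    intro r hr
    rw [Set.mem_smul_set_iff_inv_smul_mem₀ hr.ne']
    change Phi p (r⁻¹ • ξ) ≤ 1 ↔ _
    rw [Phi_smul h, abs_of_pos (inv_pos.2 hr), inv_mul_le_iff₀ hr, mul_one]
  apply le_antisymm
  · apply le_of_forall_pos_le_add
    intro ε hε
    have hr : 0 < Phi p ξ + ε := by linarith [Phi_nonneg h ξ]
    exact gauge_le_of_mem hr.le ((hmem _ hr).2 (by linarith))
  · apply le_csInf
    · refine ⟨Phi p ξ + 1, by linarith [Phi_nonneg h ξ], (hmem _ ?_).2 (by linarith)⟩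
      linarith [Phi_nonneg h ξ]
    · rintro r ⟨hr, hr'⟩
      exact (hmem r hr).1 hr'

/-! ### the boundary curve of a section -/

section

variable {p q : ℍ → ℝ}

/-- the boundary curve of the section -/
noncomputable def bc (p : ℍ → ℝ) (z : ℍ) (t : ℝ) : E3 :=
  (p (z * rot qK t))⁻¹ • fu (z * rot qK t)

/-- its velocity -/
noncomputable def bc' (p q : ℍ → ℝ) (z : ℍ) (t : ℝ) : E3 :=
  (p (z * rot qK t))⁻¹ • fv (z * rot qK t)
    + (-q (z * rot qK t) / p (z * rot qK t) ^ 2) • fu (z * rot qK t)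

theorem hasDerivAt_bc (h : Gaugeable p q) {z : ℍ} (hz : z ≠ 0) (t : ℝ) :
    HasDerivAt (bc p z) (bc' p q z t) t := by
  have h1 := (h.deriv z hz t).fun_inv (h.pos _ (mul_rot_ne_zero isImUnit_K hz t)).ne'
  have h2 := h1.fun_smul (hasDerivAt_fuK z t)
  exact h2

theorem continuous_bc' (h : Gaugeable p q) {z : ℍ} (hz : z ≠ 0) : Continuous (bc' p q z) := by
  have c1 := continuous_comp_rot isImUnit_K h.cts.cont hz
  have c2 := continuous_comp_rot isImUnit_K h.ctsq.cont hz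
  have c3 : Continuous fun t => fu (z * rot qK t) :=
    continuous_iff_continuousAt.2 fun t => (hasDerivAt_fuK z t).continuousAt
  have c4 : Continuous fun t => fv (z * rot qK t) :=
    continuous_iff_continuousAt.2 fun t => (hasDerivAt_fvK z t).continuousAt
  have hne : ∀ t, p (z * rot qK t) ≠ 0 := fun t =>
    (h.pos _ (mul_rot_ne_zero isImUnit_K hz t)).ne'
  unfold bc'
  exact ((c1.inv₀ hne).smul c4).add
    ((c2.neg.div (c1.pow 2) fun t => pow_ne_zero 2 (hne t)).smul c3)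

theorem norm_bc' (h : Gaugeable p q) {z : ℍ} (hz : z ≠ 0) (t : ℝ) :
    ‖bc' p q z t‖ = Lg (p (z * rot qK t)) (q (z * rot qK t)) := by
  have hne := mul_rot_ne_zero isImUnit_K hz t
  have hq := h.pos _ hne
  have hlen : 0 ≤ Lg (p (z * rot qK t)) (q (z * rot qK t)) :=
    div_nonneg (Real.sqrt_nonneg _) (by positivity)
  rw [← sq_eq_sq₀ (norm_nonneg _) hlen]
  have e1 : ‖bc' p q z t‖ ^ 2 = ((p (z * rot qK t))⁻¹) ^ 2
      + (-q (z * rot qK t) / p (z * rot qK t) ^ 2) ^ 2 := by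
    unfold bc'
    rw [norm_add_sq_real, norm_smul, norm_smul, norm_fu hne, norm_fv hne, mul_one, mul_one,
      inner_smul_left, inner_smul_right, real_inner_comm, inner_fu_fv hne, Real.norm_eq_abs,
      Real.norm_eq_abs, sq_abs, sq_abs]
    simp
  rw [e1, Lg, div_pow _ _ 2, div_pow _ _ 2, Real.sq_sqrt (by positivity)]
  field_simp

theorem inner_bc (z : ℍ) (hz : z ≠ 0) (t : ℝ) :
    inner ℝ (bc p z t) (fe z) = (0:ℝ) := by
  unfold bc
  rw [fu_rotK, inner_smul_left, inner_add_left, inner_smul_left, inner_smul_left,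
    inner_fu_fe hz, inner_fv_fe hz]
  simp

theorem Phi_bc (h : Gaugeable p q) {z : ℍ} (hz : z ≠ 0) (t : ℝ) : Phi p (bc p z t) = 1 := by
  have hq := h.pos _ (mul_rot_ne_zero isImUnit_K hz t)
  unfold bc
  rw [Phi_smul_fu h (mul_rot_ne_zero isImUnit_K hz t) (inv_pos.2 hq).le]
  exact inv_mul_cancel₀ hq.ne'

theorem image_bc (h : Gaugeable p q) {z : ℍ} (hz : z ≠ 0) :
    bc p z '' Ico (0:ℝ) (2 * π) = {x : E3 | inner ℝ x (fe z) = (0:ℝ) ∧ Phi p x = 1} := by
  apply Set.Subset.antisymm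
  · rintro _ ⟨t, -, rfl⟩
    exact ⟨inner_bc z hz t, Phi_bc h hz t⟩
  · rintro x ⟨hxe, hx1⟩
    have hex := expand3 (norm_fu hz) (norm_fv hz) (norm_fe hz) (inner_fu_fv hz)
      (inner_fu_fe hz) (inner_fv_fe hz) hxe
    obtain ⟨t, ht, r, hr, ha, hb⟩ := exists_polar (inner ℝ (fu z) x) (inner ℝ (fv z) x)
    have hxr : x = r • fu (z * rot qK t) := by
      rw [fu_rotK, smul_add, smul_smul, smul_smul, ← ha, ← hb]
      exact hex
    refine ⟨t, ht, ?_⟩
    have h1 : r * p (z * rot qK t) = 1 := by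
      rw [hxr, Phi_smul_fu h (mul_rot_ne_zero isImUnit_K hz t) hr] at hx1
      exact hx1
    unfold bc
    rw [hxr, ← eq_inv_of_mul_eq_one_left h1]

theorem injOn_bc (h : Gaugeable p q) {z : ℍ} (hz : z ≠ 0) :
    InjOn (bc p z) (Ico (0:ℝ) (2 * π)) := by
  intro s hs t ht hst
  have hns := mul_rot_ne_zero isImUnit_K hz s
  have hnt := mul_rot_ne_zero isImUnit_K hz t
  have qs := h.pos _ hns
  have qt := h.pos _ hnt
  have hn : (p (z * rot qK s))⁻¹ = (p (z * rot qK t))⁻¹ := by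
    have := congrArg norm hst
    unfold bc at this
    rwa [norm_smul, norm_smul, norm_fu hns, norm_fu hnt, mul_one, mul_one,
      Real.norm_of_nonneg (inv_nonneg.2 qs.le), Real.norm_of_nonneg (inv_nonneg.2 qt.le)] at this
  have hu : fu (z * rot qK s) = fu (z * rot qK t) := by
    unfold bc at hst
    rw [hn] at hst
    exact smul_right_injective E3 (inv_ne_zero qt.ne') hst
  rw [fu_rotK, fu_rotK] at hu
  have hcos : Real.cos s = Real.cos t := by
    have := congrArg (fun x => (inner ℝ (fu z) x : ℝ)) hu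
    simp only [inner_add_right, inner_smul_right, inner_fu_fv hz, real_inner_self_eq_norm_sq,
      norm_fu hz] at this
    linarith
  have hsin : Real.sin s = Real.sin t := by
    have := congrArg (fun x => (inner ℝ (fv z) x : ℝ)) hu
    simp only [inner_add_right, inner_smul_right, real_inner_comm (fu z) (fv z), inner_fu_fv hz,
      real_inner_self_eq_norm_sq, norm_fv hz] at this
    linarith
  have hang : (s : Real.Angle) = (t : Real.Angle) := Real.Angle.cos_sin_inj hcos hsin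
  rw [Real.Angle.angle_eq_iff_two_pi_dvd_sub] at hang
  obtain ⟨k, hk⟩ := hang
  have hpi := Real.pi_pos
  have k1 : (k:ℝ) < 1 := by
    by_contra hcon
    rw [not_lt] at hcon
    nlinarith [hs.2, ht.1]
  have k2 : (-1:ℝ) < k := by
    by_contra hcon
    rw [not_lt] at hcon
    nlinarith [hs.1, ht.2]
  have k3 : k = 0 := by
    have a1 : k < 1 := by exact_mod_cast k1
    have a2 : -1 < k := by exact_mod_cast k2
    omega
  rw [k3] at hk
  simp at hk
  linarith

theorem hausdorff_sec (h : Gaugeable p q) {z : ℍ} (hz : z ≠ 0) :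
    μH[1] {x : E3 | inner ℝ x (fe z) = (0:ℝ) ∧ Phi p x = 1}
      = ENNReal.ofReal (2 * π * avgK (fun z => Lg (p z) (q z)) z) := by
  rw [← image_bc h hz, hausdorff_curve (hasDerivAt_bc h hz) (continuous_bc' h hz)
    (by positivity) (injOn_bc h hz), avgK]
  have hpi := Real.pi_pos
  rw [← mul_assoc, mul_one_div_cancel (by positivity), one_mul]
  congr 1
  apply intervalIntegral.integral_congr
  intro t _
  exact norm_bc' h hz t

end

theorem exists_fe {e : E3} (he : e ≠ 0) : ∃ z : ℍ, z ≠ 0 ∧ e = ‖e‖ • fe z := by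
  obtain ⟨x, hx, h1⟩ := exists_repr e
  have h2 : conjQ (rot qJ (π / 2)) qK = qI := by
    have := conj_rot_gen (a := qJ) (b := qK) (c := qI) isImUnit_J qJ_mul_qK qK_mul_qJ qI_mul_qJ
      (π / 2)
    simpa using this
  refine ⟨x * rot qJ (π / 2), mul_rot_ne_zero isImUnit_J hx _, ?_⟩
  rw [fe, fr_mul, h2]
  exact h1

theorem frontier_body {p q : ℍ → ℝ} (h : Gaugeable p q) {e : E3} (he : e ≠ 0) {z : ℍ}
    (hz : e = ‖e‖ • fe z) :
    intrinsicFrontier ℝ (body p ∩ {x : E3 | inner ℝ x e = (0:ℝ)})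
      = {x : E3 | inner ℝ x (fe z) = (0:ℝ) ∧ Phi p x = 1} := by
  rw [intrinsicFrontier_section (isCompact_body h) (convex_body h) (nhds_body h)]
  ext x
  simp only [Set.mem_setOf_eq, gauge_body h]
  have h1 : inner ℝ x e = ‖e‖ * inner ℝ x (fe z) := by
    conv_lhs => rw [hz]
    rw [inner_smul_right]
  have hn : ‖e‖ ≠ 0 := norm_ne_zero_iff.2 he
  rw [h1, mul_eq_zero, or_iff_right hn]

/-- **GEO.** -/
theorem geo_holds : GeoStatement := by
  intro p₁ q₁ p₂ q₂ h₁ h₂ hper hne hall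
  obtain ⟨x, hx, hpx⟩ := hne
  have key : body p₁ = body p₂ := by
    apply hall (body p₁) (body p₂) (isCompact_body h₁) (convex_body h₁)
      ⟨0, mem_interior_iff_mem_nhds.2 (nhds_body h₁)⟩
      (fun ξ hξ => by
        change Phi p₁ (-ξ) ≤ 1
        rw [Phi_neg h₁]; exact hξ)
      (isCompact_body h₂) (convex_body h₂) ⟨0, mem_interior_iff_mem_nhds.2 (nhds_body h₂)⟩
      (fun ξ hξ => by
        change Phi p₂ (-ξ) ≤ 1
        rw [Phi_neg h₂]; exact hξ)
    intro e he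
    obtain ⟨z, hz, hez⟩ := exists_fe he
    rw [frontier_body h₁ he hez, frontier_body h₂ he hez, hausdorff_sec h₁ hz, hausdorff_sec h₂ hz,
      hper z hz]
  apply hpx
  have h3 : Phi p₁ (fu x) = Phi p₂ (fu x) := by rw [← gauge_body h₁, ← gauge_body h₂, key]
  have h4 := Phi_smul_fu h₁ hx zero_le_one
  have h5 := Phi_smul_fu h₂ hx zero_le_one
  rw [one_smul, one_mul] at h4 h5
  rw [← h4, ← h5, h3]

end Pool.Agent.MP85963d.H72
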